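import Pool.Agent.Helper6.NX.GoalsB2

/-! Project NX (MP_75608d_al): packet NX-CMP2, small orbits contain closed subtrees. -/

namespace Pool.Agent.Helper3.NX

open Pool.Agent.Helper6.NX Equiv

theorem mem_orb {n : ℕ} (y : Fin 3 → Perm (Fin n)) (p q : Fin n) :
    q ∈ orb y p ↔ ∃ g ∈ Subgroup.closure (Set.range y), g p = q := by
  unfold orb
  simp only [Finset.mem_filter, Finset.mem_univ, true_and]

theorem pt_mem_orb {n : ℕ} (y : Fin 3 → Perm (Fin n)) (p : Fin n) (s : List Bool) :
    pt y p s ∈ orb y p := by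
  induction s with
  | nil => exact (mem_orb y p _).2 ⟨1, Subgroup.one_mem _, rfl⟩
  | cons b s ih =>
    obtain ⟨g, hg, hgp⟩ := (mem_orb y p _).1 ih
    refine (mem_orb y p _).2 ⟨y (lab (b :: s)) * g, ?_, ?_⟩
    · exact Subgroup.mul_mem _ (Subgroup.subset_closure (Set.mem_range_self _)) hg
    · show y (lab (b :: s)) (g p) = pt y p (b :: s)
      rw [hgp]
      rfl

theorem card_le_orb {n : ℕ} (y : Fin 3 → Perm (Fin n)) (p : Fin n) (T : Finset (List Bool))
    (hT : Set.InjOn (pt y p) (T : Set (List Bool))) : T.card ≤ (orb y p).card :=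
  Finset.card_le_card_of_injOn (pt y p) (fun s _ => pt_mem_orb y p s) hT

theorem exists_clo {n : ℕ} (y : Fin 3 → Perm (Fin n)) (p : Fin n) :
    ∀ (k : ℕ) (T : Finset (List Bool)), TC T → Set.InjOn (pt y p) (T : Set (List Bool)) →
      (orb y p).card - T.card = k → ∃ T' : Finset (List Bool), TC T' ∧ Clo y p T' := by
  intro k
  induction k using Nat.strong_induction_on with
  | _ k ih =>
    intro T hTC hinj hk
    classical
    by_cases hC : ∀ s ∈ T, ∀ b, ∃ t ∈ T, pt y p (b :: s) = pt y p t
    · exact ⟨T, hTC, hinj, hC⟩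
    · push Not at hC
      obtain ⟨s, hs, b, hb⟩ := hC
      have hnot : (b :: s) ∉ T := fun h => hb _ h rfl
      have hTC' : TC (insert (b :: s) T) := by
        refine ⟨Finset.mem_insert_of_mem hTC.1, ?_⟩
        intro b' s' h'
        rcases Finset.mem_insert.1 h' with h1 | h1
        · have : s' = s := (List.cons.inj h1).2
          rw [this]
          exact Finset.mem_insert_of_mem hs
        · exact Finset.mem_insert_of_mem (hTC.2 b' s' h1)
      have hinj' : Set.InjOn (pt y p) ((insert (b :: s) T : Finset (List Bool)) :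
          Set (List Bool)) := by
        rw [Finset.coe_insert]
        refine (Set.injOn_insert (by exact_mod_cast hnot)).2 ⟨hinj, ?_⟩
        rintro ⟨t, ht, he⟩
        exact hb t (by exact_mod_cast ht) he.symm
      have hle := card_le_orb y p _ hinj'
      rw [Finset.card_insert_of_notMem hnot] at hle
      refine ih ((orb y p).card - (insert (b :: s) T).card) ?_ _ hTC' hinj' rfl
      rw [Finset.card_insert_of_notMem hnot]
      omega

theorem thmCMP2 : Pool.Agent.Helper6.NX.S_CMP2 := by
  intro n J y p hJ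
  have h0 : TC ({[]} : Finset (List Bool)) := by
    refine ⟨Finset.mem_singleton_self _, ?_⟩
    intro b s h
    rw [Finset.mem_singleton] at h
    exact absurd h (List.cons_ne_nil _ _)
  have h1 : Set.InjOn (pt y p) (({[]} : Finset (List Bool)) : Set (List Bool)) := by
    rw [Finset.coe_singleton]
    exact Set.injOn_singleton _ _
  obtain ⟨T, hTC, hClo⟩ := exists_clo y p _ {[]} h0 h1 rfl
  exact ⟨T, hTC, Finset.card_pos.2 ⟨[], hTC.1⟩, (card_le_orb y p T hClo.1).trans hJ, hClo⟩

end Pool.Agent.Helper3.NX
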