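import Pool.Agent.Helper6.NX.GoalsA

/-! Project NX (MP_75608d_al): packet NX-L9H, continuity of the entropy. -/

namespace Pool.Agent.Helper3.NX

open Pool.Agent.Helper6.NX

theorem ent_pair_unit {Ω : Type} [Fintype Ω] (P : Ω → ℝ) :
    ent P (fun ω => (ω, ())) = H P := by
  unfold H ent
  congr 1
  refine Finset.sum_congr rfl fun ω _ => ?_
  have : law P (fun ω => (ω, ())) (ω, ()) = law P (fun g => g) ω := by
    unfold law
    refine Finset.sum_congr rfl fun ω' _ => ?_
    by_cases h : ω' = ω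
    · subst h; simp
    · rw [if_neg, if_neg h]
      intro h'
      exact h (Prod.mk.inj h').1
  rw [this]

theorem thmL9H (hl3c : Pool.Agent.Helper6.NX.S_L3C) (hl9 : Pool.Agent.Helper6.NX.S_L9) :
    Pool.Agent.Helper6.NX.S_L9H := by
  intro Ω _ P Q t hP hQ hPQ
  have hcent : ∀ R : Ω → ℝ, IsLaw R → cent R (fun ω => ω) (fun _ => ()) = H R := by
    intro R hR
    have h0 := (hl3c Ω Ω Unit R (fun ω => ω) (fun _ => ()) hR).2.2.1
    unfold cent
    rw [h0, sub_zero, ent_pair_unit]
  have hcard : 1 ≤ Fintype.card Ω := by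
    rw [Nat.one_le_iff_ne_zero]
    intro h0
    have hemp : IsEmpty Ω := Fintype.card_eq_zero_iff.1 h0
    have h1 := hP.2
    rw [Finset.univ_eq_empty, Finset.sum_empty] at h1
    exact zero_ne_one h1
  have h := hl9 Ω Ω Unit P Q (fun ω => ω) (fun _ => ()) t (Fintype.card Ω)
    (fun _ => Finset.univ) hP hQ hPQ hcard (fun _ => le_of_eq (by rw [Finset.card_univ]))
    (fun ω => Finset.mem_univ _)
  rw [hcent P hP, hcent Q hQ] at h
  exact h

end Pool.Agent.Helper3.NX
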